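import Pool.Agent.Helper79.T1.Val

/-!
MP_e1889a_ag: the log discrepancy of the flow valuation of a derivation.
-/

set_option autoImplicit false

namespace Pool.Agent.Helper79.T1

open IsLocalRing Filter Pool.Agent.Helper11.SY Pool.Agent.Helper88.T1

noncomputable section

section Lie

variable {R : Type} [CommRing R] [Algebra ℂ R] {N : ℕ}

theorem sum_upd (D : Derivation ℂ R R) (th : R [⋀^Fin N]→ₗ[ℂ] R) (f : Fin N → R) (i : Fin N)
    (x : R) : ∑ l, th (Function.update (Function.update f i x) l (D (Function.update f i x l))) =
      th (Function.update f i (D x)) + ∑ l ∈ Finset.univ.erase i,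
        th (Function.update (Function.update f l (D (f l))) i x) := by
  rw [← Finset.add_sum_erase Finset.univ _ (Finset.mem_univ i), Function.update_self,
    Function.update_idem]
  congr 1
  refine Finset.sum_congr rfl fun l hl => ?_
  have hl' : l ≠ i := Finset.ne_of_mem_erase hl
  rw [Function.update_of_ne hl', Function.update_comm hl']

/-- the Lie derivative of an alternating map -/
def lie (D : Derivation ℂ R R) (th : R [⋀^Fin N]→ₗ[ℂ] R) : R [⋀^Fin N]→ₗ[ℂ] R where
  toFun f := D (th f) - ∑ i, th (Function.update f i (D (f i)))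
  map_update_add' := by
    intro inst f i x y
    obtain rfl : inst = instDecidableEqFin N := Subsingleton.elim _ _
    rw [sum_upd, sum_upd, sum_upd, map_add D, th.map_update_add, th.map_update_add, map_add D]
    have h1 : ∀ l, th (Function.update (Function.update f l (D (f l))) i (x + y)) =
        th (Function.update (Function.update f l (D (f l))) i x) +
          th (Function.update (Function.update f l (D (f l))) i y) := fun l =>
      th.map_update_add _ i x y
    rw [Finset.sum_congr rfl fun l _ => h1 l, Finset.sum_add_distrib]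
    ring
  map_update_smul' := by
    intro inst f i c x
    obtain rfl : inst = instDecidableEqFin N := Subsingleton.elim _ _
    rw [sum_upd, sum_upd, Derivation.map_smul, th.map_update_smul, th.map_update_smul,
      Derivation.map_smul]
    have h1 : ∀ l, th (Function.update (Function.update f l (D (f l))) i (c • x)) =
        c • th (Function.update (Function.update f l (D (f l))) i x) := fun l =>
      th.map_update_smul _ i c x
    rw [Finset.sum_congr rfl fun l _ => h1 l, ← Finset.smul_sum, ← smul_add, ← smul_sub]
  map_eq_zero_of_eq' := by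
    intro f a b hab hne
    have h0 : th f = 0 := th.map_eq_zero_of_eq f hab hne
    rw [h0, map_zero, zero_sub, neg_eq_zero]
    rw [Finset.sum_eq_add a b hne]
    · have h1 : Function.update f b (D (f b)) =
          Function.update f a (D (f a)) ∘ Equiv.swap a b := by
        funext l
        rw [Function.comp_apply]
        by_cases hla : l = a
        · subst hla
          rw [Equiv.swap_apply_left, Function.update_of_ne hne, Function.update_of_ne hne.symm,
            hab]
        · by_cases hlb : l = b
          · subst hlb
            rw [Equiv.swap_apply_right, Function.update_self, Function.update_self, hab]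
          · rw [Equiv.swap_apply_of_ne_of_ne hla hlb, Function.update_of_ne hla,
              Function.update_of_ne hlb]
      rw [h1, th.map_swap _ hne, add_neg_cancel]
    · intro c _ hc
      refine th.map_eq_zero_of_eq _ (i := a) (j := b) ?_ hne
      rw [Function.update_of_ne hc.1.symm, Function.update_of_ne hc.2.symm, hab]
    · intro h
      exact absurd (Finset.mem_univ a) h
    · intro h
      exact absurd (Finset.mem_univ b) h

theorem lie_apply (D : Derivation ℂ R R) (th : R [⋀^Fin N]→ₗ[ℂ] R) (f : Fin N → R) :
    lie D th f = D (th f) - ∑ i, th (Function.update f i (D (f i))) := rfl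

theorem lie_der (D : Derivation ℂ R R) {th : R [⋀^Fin N]→ₗ[ℂ] R} (h : IsMultiDer R N th) :
    IsMultiDer R N (lie D th) := by
  intro f i x y
  have h1 : ∀ l, th (Function.update (Function.update f l (D (f l))) i (x * y)) =
      x * th (Function.update (Function.update f l (D (f l))) i y) +
        y * th (Function.update (Function.update f l (D (f l))) i x) := fun l =>
    h _ i x y
  rw [lie_apply, lie_apply, lie_apply, sum_upd, sum_upd, sum_upd,
    Finset.sum_congr rfl fun l _ => h1 l, Finset.sum_add_distrib, ← Finset.mul_sum,
    ← Finset.mul_sum, h f i x y, Derivation.leibniz, th.map_update_add, smul_eq_mul, smul_eq_mul,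
    h f i x (D y), h f i y (D x), map_add D, Derivation.leibniz, Derivation.leibniz, smul_eq_mul,
    smul_eq_mul, smul_eq_mul, smul_eq_mul]
  ring

theorem D_th {th : R [⋀^Fin N]→ₗ[ℂ] R} (h : IsGen th) (D : Derivation ℂ R R) :
    ∃ h0 : R, ∀ f, D (th f) = (∑ i, th (Function.update f i (D (f i)))) + h0 * th f := by
  obtain ⟨h0, hh⟩ := h.gen (lie D th) (lie_der D h.der)
  refine ⟨h0, fun f => ?_⟩
  rw [← hh f, lie_apply]
  ring

end Lie

theorem iter_sum {R : Type} [CommRing R] [Algebra ℂ R] {ι : Type*} (D : Derivation ℂ R R)
    (t : Finset ι) (F : ι → R) (n : ℕ) :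
    (D : R → R)^[n] (∑ i ∈ t, F i) = ∑ i ∈ t, (D : R → R)^[n] (F i) := by
  induction n with
  | zero => rfl
  | succ n ih =>
    rw [Function.iterate_succ_apply', ih, map_sum]
    exact Finset.sum_congr rfl fun i _ => (Function.iterate_succ_apply' _ _ _).symm

section Main

variable {R : Type} [CommRing R] [Algebra ℂ R] [IsLocalRing R] {N : ℕ}

/-- the first claim -/
theorem claim1 {th : R [⋀^Fin N]→ₗ[ℂ] R} {D : Derivation ℂ R R}
    (hC : ∀ (f : Fin N → R) (g : R), D g * th f = ∑ i, D (f i) * th (Function.update f i g))
    {w : CVal R} {A s : ℝ} (hA : LDLe th w A) {g : R} {x y : ℝ}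
    (hx : w.v g = (x : WithTop ℝ)) (hy : w.v (D g) = (y : WithTop ℝ))
    {f : Fin N → R} {a : Fin N → ℝ}
    (ha : ∀ l j, (a l : WithTop ℝ) ≤ w.v ((D : R → R)^[j] (f l)) + ((j * s : ℝ) : WithTop ℝ))
    (k : Fin N → ℕ) :
    ((∑ l, (a l - k l * s) + (x - y - s) - A : ℝ) : WithTop ℝ) ≤
      w.v (th fun l => (D : R → R)^[k l] (f l)) := by
  set F : Fin N → R := fun l => (D : R → R)^[k l] (f l) with hF
  have h1 : ((∑ l, (a l - k l * s) + x - s - A : ℝ) : WithTop ℝ) ≤ w.v (D g * th F) := by
    rw [hC F g]
    refine w.v.map_le_sum fun i _ => ?_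
    rw [w.v.map_mul]
    have h2 : ((a i - (k i + 1 : ℕ) * s : ℝ) : WithTop ℝ) ≤ w.v (D (F i)) := by
      have := ha i (k i + 1)
      rw [le_add_coe, Function.iterate_succ_apply'] at this
      exact this
    set c : Fin N → ℝ := fun l => if l = i then x else a l - k l * s with hc
    have h3 : ((∑ l, c l : ℝ) : WithTop ℝ) ≤ ∑ l, w.v (Function.update F i g l) := by
      rw [WithTop.coe_sum]
      refine Finset.sum_le_sum fun l _ => ?_
      by_cases hl : l = i
      · subst hl
        rw [Function.update_self, hx, hc]
        simp
      · rw [Function.update_of_ne hl]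
        have := ha l (k l)
        rw [le_add_coe] at this
        simp only [hc, if_neg hl]
        exact this
    have h4 : ∑ l, c l = x + (∑ l, (a l - k l * s) - (a i - k i * s)) := by
      rw [← Finset.add_sum_erase Finset.univ c (Finset.mem_univ i),
        ← Finset.add_sum_erase Finset.univ (fun l => a l - k l * s) (Finset.mem_univ i)]
      have h5 : ∑ l ∈ Finset.univ.erase i, c l = ∑ l ∈ Finset.univ.erase i, (a l - k l * s) := by
        refine Finset.sum_congr rfl fun l hl => ?_
        simp only [hc, if_neg (Finset.ne_of_mem_erase hl)]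
      rw [h5]
      simp only [hc, if_true]
      ring
    have h5 := h3.trans (hA (Function.update F i g))
    rw [le_add_coe] at h5
    have h6 := add_le_add h2 h5
    rw [← WithTop.coe_add] at h6
    refine le_trans (le_of_eq ?_) h6
    rw [h4]
    congr 1
    push_cast
    ring
  rw [w.v.map_mul, hy, add_comm (y : WithTop ℝ), le_add_coe] at h1
  refine le_trans (le_of_eq ?_) h1
  congr 1
  ring

/-- the second claim -/
theorem claim2 {th : R [⋀^Fin N]→ₗ[ℂ] R} {D : Derivation ℂ R R}
    {w : CVal R} {s : ℝ} (hs : 0 < s) {h0 : R}
    (hD : ∀ f, D (th f) = (∑ i, th (Function.update f i (D (f i)))) + h0 * th f)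
    {f : Fin N → R} {B : ℝ}
    (hB : ∀ k : Fin N → ℕ, ((B - (∑ l, k l : ℕ) * s : ℝ) : WithTop ℝ) ≤
      w.v (th fun l => (D : R → R)^[k l] (f l))) (j : ℕ) :
    ∀ (k : Fin N → ℕ) (h : R), ((B - (j + ∑ l, k l : ℕ) * s : ℝ) : WithTop ℝ) ≤
      w.v ((D : R → R)^[j] (h * th fun l => (D : R → R)^[k l] (f l))) := by
  induction j with
  | zero =>
    intro k h
    rw [Function.iterate_zero, id_eq, w.v.map_mul, Nat.zero_add]
    exact (hB k).trans (le_add_of_nonneg_left (w.nonneg h))
  | succ j ih =>
    intro k h
    set F : Fin N → R := fun l => (D : R → R)^[k l] (f l) with hF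
    have hup : ∀ i, Function.update F i (D (F i)) =
        fun l => (D : R → R)^[Function.update k i (k i + 1) l] (f l) := by
      intro i
      funext l
      by_cases hl : l = i
      · subst hl
        rw [Function.update_self, Function.update_self, Function.iterate_succ_apply']
      · rw [Function.update_of_ne hl, Function.update_of_ne hl]
    have hsum : ∀ i, ∑ l, Function.update k i (k i + 1) l = ∑ l, k l + 1 := by
      intro i
      rw [Finset.sum_update_of_mem (Finset.mem_univ i),
        ← Finset.add_sum_erase Finset.univ k (Finset.mem_univ i), Finset.sdiff_singleton_eq_erase]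
      ring
    have e1 : (D : R → R)^[j + 1] (h * th F) =
        (D : R → R)^[j] ((D h + h * h0) * th F) +
          ∑ i, (D : R → R)^[j] (h * th fun l => (D : R → R)^[Function.update k i (k i + 1) l] (f l)) := by
      rw [Function.iterate_succ_apply, Derivation.leibniz, hD F, smul_eq_mul, smul_eq_mul,
        ← iter_sum, ← iter_add]
      congr 1
      rw [← Finset.mul_sum, Finset.sum_congr rfl fun i _ => congrArg th (hup i)]
      ring
    rw [e1]
    refine w.v.map_le_add ?_ (w.v.map_le_sum fun i _ => ?_)
    · refine le_trans ?_ (ih k (D h + h * h0))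
      rw [WithTop.coe_le_coe]
      push_cast
      nlinarith
    · refine le_trans (le_of_eq ?_) (ih (Function.update k i (k i + 1)) h)
      rw [hsum i]
      congr 1
      push_cast
      ring

end Main

theorem s_LD : S_LD := by
  intro R _ _ _ _ N th hth D hC w u A s hA hs hu g x y hx hy f
  by_cases hf : ∃ i, f i = 0
  · obtain ⟨i, hi⟩ := hf
    rw [th.map_coord_zero i hi, AddValuation.map_zero, top_add]
    exact le_top
  · rw [not_exists] at hf
    choose a ha0 ha using fun i => w_real u (hf i)
    obtain ⟨h0, hD⟩ := D_th hth D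
    have h1 : ∀ l j, (a l : WithTop ℝ) ≤
        w.v ((D : R → R)^[j] (f l)) + ((j * s : ℝ) : WithTop ℝ) := by
      intro l j
      rw [← ha l]
      exact hu.le (f l) j
    have h2 := claim1 hC (s := s) hA hx hy h1
    have h3 := claim2 (w := w) hs hD (f := f) (B := ∑ l, a l + (x - y - s) - A) (by
      intro k
      refine le_trans (le_of_eq ?_) (h2 k)
      congr 1
      rw [Finset.sum_sub_distrib, ← Finset.sum_mul]
      push_cast
      ring)
    obtain ⟨j, hj⟩ := hu.eq (th f)
    have h4 := h3 j (fun _ => 0) 1
    rw [one_mul] at h4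
    simp only [Function.iterate_zero, id_eq, Finset.sum_const_zero, add_zero] at h4
    rw [Finset.sum_congr rfl fun i _ => ha i, ← WithTop.coe_sum, le_add_coe, hj, le_add_coe]
    refine le_trans (le_of_eq ?_) h4
    congr 1
    ring

end

end Pool.Agent.Helper79.T1
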