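import Pool.Agent.Helper88.T1.Df

/-!
MP_e1889a_ag: the valuation `u f = min_j (w (D ^ j f) + j s)` of a derivation `D`.
-/

set_option autoImplicit false

namespace Pool.Agent.Helper79.T1

open IsLocalRing Filter Pool.Agent.Helper11.SY Pool.Agent.Helper88.T1

noncomputable section

variable {R : Type} [CommRing R] [Algebra ℂ R]

/-- Leibniz formula for iterated derivations. -/
theorem iter_mul (D : Derivation ℂ R R) (f g : R) (n : ℕ) :
    (D : R → R)^[n] (f * g) = ∑ ij ∈ Finset.HasAntidiagonal.antidiagonal n,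
      (n.choose ij.1 : R) * ((D : R → R)^[ij.1] f * (D : R → R)^[ij.2] g) := by
  induction n with
  | zero => simp
  | succ n ih =>
    rw [Function.iterate_succ_apply', ih, map_sum,
      Finset.sum_antidiagonal_choose_succ_mul
        (fun i j => (D : R → R)^[i] f * (D : R → R)^[j] g) n,
      ← Finset.sum_add_distrib]
    refine Finset.sum_congr rfl fun ij hij => ?_
    have h : n.choose ij.2 = n.choose ij.1 := by
      rw [Finset.HasAntidiagonal.mem_antidiagonal] at hij
      rw [← hij]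
      exact Nat.choose_symm_add.symm
    rw [Derivation.leibniz, Derivation.leibniz, Derivation.map_natCast, h]
    simp only [Function.iterate_succ_apply', smul_eq_mul]
    ring

theorem iter_add (D : Derivation ℂ R R) (f g : R) (n : ℕ) :
    (D : R → R)^[n] (f + g) = (D : R → R)^[n] f + (D : R → R)^[n] g := by
  induction n with
  | zero => rfl
  | succ n ih => rw [Function.iterate_succ_apply', Function.iterate_succ_apply',
      Function.iterate_succ_apply', ih, map_add]

theorem iter_zero (D : Derivation ℂ R R) (n : ℕ) : (D : R → R)^[n] (0 : R) = 0 := by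
  induction n with
  | zero => rfl
  | succ n ih => rw [Function.iterate_succ_apply', ih, map_zero]

variable [IsLocalRing R]

/-- shift by a real number -/
theorem le_add_coe {z : WithTop ℝ} {c t : ℝ} :
    (c : WithTop ℝ) ≤ z + (t : WithTop ℝ) ↔ ((c - t : ℝ) : WithTop ℝ) ≤ z := by
  induction z using WithTop.recTopCoe with
  | top => simp
  | coe z =>
    rw [← WithTop.coe_add, WithTop.coe_le_coe, WithTop.coe_le_coe, sub_le_iff_le_add]

theorem lt_add_coe {z : WithTop ℝ} {c t : ℝ} :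
    (c : WithTop ℝ) < z + (t : WithTop ℝ) ↔ ((c - t : ℝ) : WithTop ℝ) < z := by
  induction z using WithTop.recTopCoe with
  | top =>
    rw [top_add]
    exact ⟨fun _ => WithTop.coe_lt_top _, fun _ => WithTop.coe_lt_top _⟩
  | coe z =>
    rw [← WithTop.coe_add, WithTop.coe_lt_coe, WithTop.coe_lt_coe, sub_lt_iff_lt_add]

omit [Algebra ℂ R] in
theorem w_real (w : CVal R) {f : R} (hf : f ≠ 0) : ∃ x : ℝ, 0 ≤ x ∧
    w.v f = (x : WithTop ℝ) := by
  have h1 : w.v f ≠ ⊤ := fun h => hf (w.top f h)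
  obtain ⟨x, hx⟩ := WithTop.ne_top_iff_exists.1 h1
  refine ⟨x, ?_, hx.symm⟩
  have h2 := w.nonneg f
  rw [← hx] at h2
  exact_mod_cast h2

omit [Algebra ℂ R] in
theorem w_unit (w : CVal R) {u : R} (hu : IsUnit u) : w.v u = 0 := by
  have h1 : ¬ 0 < w.v u := by
    rw [w.pos, mem_maximalIdeal, mem_nonunits_iff, not_not]
    exact hu
  exact le_antisymm (not_lt.1 h1) (w.nonneg u)

theorem w_cast (w : CVal R) {n : ℕ} (hn : n ≠ 0) : w.v (n : R) = 0 := by
  refine w_unit w ?_
  have h1 : (n : R) = algebraMap ℂ R (n : ℂ) := by rw [map_natCast]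
  rw [h1]
  exact (IsUnit.mk0 (n : ℂ) (Nat.cast_ne_zero.2 hn)).map (algebraMap ℂ R)

/-- the terms -/
def tm (w : CVal R) (D : Derivation ℂ R R) (s : ℝ) (f : R) (j : ℕ) : WithTop ℝ :=
  w.v ((D : R → R)^[j] f) + ((j * s : ℝ) : WithTop ℝ)

theorem exists_tm (w : CVal R) (D : Derivation ℂ R R) {s : ℝ} (hs : 0 < s) (f : R) :
    ∃ m : WithTop ℝ, (∀ j, m ≤ tm w D s f j) ∧ ∃ j, m = tm w D s f j := by
  by_cases hf : f = 0
  · subst hf
    refine ⟨⊤, fun j => ?_, 0, ?_⟩
    · rw [tm, iter_zero, AddValuation.map_zero, top_add]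
    · rw [tm, iter_zero, AddValuation.map_zero, top_add]
  · obtain ⟨x, hx0, hx⟩ := w_real w hf
    obtain ⟨n, hn⟩ := exists_nat_gt (x / s)
    obtain ⟨i, hi, hmin⟩ := Finset.exists_min_image (Finset.range (n + 1)) (tm w D s f)
      ⟨0, Finset.mem_range.2 (Nat.succ_pos n)⟩
    refine ⟨tm w D s f i, fun j => ?_, i, rfl⟩
    by_cases hj : j < n + 1
    · exact hmin j (Finset.mem_range.2 hj)
    · have h0 := hmin 0 (Finset.mem_range.2 (Nat.succ_pos n))
      refine h0.trans ?_
      rw [tm, tm, Function.iterate_zero, id_eq, hx]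
      have h2 : x + ((0 : ℕ) : ℝ) * s ≤ (j : ℝ) * s := by
        have h3 : (n : ℝ) + 1 ≤ j := by exact_mod_cast not_lt.1 hj
        rw [div_lt_iff₀ hs] at hn
        push_cast
        nlinarith
      have h4 := w.nonneg ((D : R → R)^[j] f)
      calc (x : WithTop ℝ) + ((((0 : ℕ) : ℝ) * s : ℝ) : WithTop ℝ)
          = ((x + ((0 : ℕ) : ℝ) * s : ℝ) : WithTop ℝ) := by rw [WithTop.coe_add]
        _ ≤ ((j * s : ℝ) : WithTop ℝ) := by exact_mod_cast h2
        _ = 0 + ((j * s : ℝ) : WithTop ℝ) := (zero_add _).symm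
        _ ≤ w.v ((D : R → R)^[j] f) + ((j * s : ℝ) : WithTop ℝ) := add_le_add h4 le_rfl

theorem tm_mul_ge (w : CVal R) (D : Derivation ℂ R R) (s : ℝ) (f g : R) {a b : ℝ}
    (ha : ∀ j, (a : WithTop ℝ) ≤ tm w D s f j) (hb : ∀ j, (b : WithTop ℝ) ≤ tm w D s g j) (n : ℕ) :
    ((a + b : ℝ) : WithTop ℝ) ≤ tm w D s (f * g) n := by
  rw [tm, le_add_coe, iter_mul]
  refine w.v.map_le_sum fun ij hij => ?_
  have hn : ij.1 + ij.2 = n := Finset.HasAntidiagonal.mem_antidiagonal.1 hij
  have h1 := ha ij.1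
  have h2 := hb ij.2
  rw [tm, le_add_coe] at h1 h2
  rw [w.v.map_mul, w.v.map_mul]
  have h3 := add_le_add (w.nonneg (n.choose ij.1 : R)) (add_le_add h1 h2)
  rw [zero_add, ← WithTop.coe_add] at h3
  refine le_trans (le_of_eq ?_) h3
  rw [← hn]
  congr 1
  push_cast
  ring

theorem tm_mul_le (w : CVal R) (D : Derivation ℂ R R) (s : ℝ) (f g : R) {a b : ℝ}
    (ha : ∀ j, (a : WithTop ℝ) ≤ tm w D s f j) (hb : ∀ j, (b : WithTop ℝ) ≤ tm w D s g j)
    (i j : ℕ) (hi : tm w D s f i = (a : WithTop ℝ)) (hj : tm w D s g j = (b : WithTop ℝ))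
    (hi' : ∀ k < i, tm w D s f k ≠ (a : WithTop ℝ)) (hj' : ∀ k < j, tm w D s g k ≠ (b : WithTop ℝ)) :
    tm w D s (f * g) (i + j) ≤ ((a + b : ℝ) : WithTop ℝ) := by
  by_contra hcon
  rw [not_le, tm, lt_add_coe, iter_mul] at hcon
  set T : ℝ := a + b - ((i + j : ℕ) : ℝ) * s with hT
  set F : ℕ × ℕ → R := fun ij => ((i + j).choose ij.1 : R) *
    ((D : R → R)^[ij.1] f * (D : R → R)^[ij.2] g) with hF
  have hmem : (i, j) ∈ Finset.HasAntidiagonal.antidiagonal (i + j) :=
    Finset.HasAntidiagonal.mem_antidiagonal.2 rfl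
  have hsum := Finset.add_sum_erase (Finset.HasAntidiagonal.antidiagonal (i + j)) F hmem
  -- the other terms
  have hoth : (T : WithTop ℝ) < w.v (∑ ij ∈ (Finset.HasAntidiagonal.antidiagonal (i + j)).erase (i, j),
      F ij) := by
    refine w.v.map_lt_sum (WithTop.coe_ne_top) fun ij hij => ?_
    rw [Finset.mem_erase, Finset.HasAntidiagonal.mem_antidiagonal] at hij
    obtain ⟨hne, hn⟩ := hij
    have h1 := ha ij.1
    have h2 := hb ij.2
    have h0 := w.nonneg ((i + j).choose ij.1 : R)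
    simp only [hF]
    rw [w.v.map_mul, w.v.map_mul]
    have hTe : (T : WithTop ℝ) = ((a - ij.1 * s : ℝ) : WithTop ℝ) + ((b - ij.2 * s : ℝ) : WithTop ℝ) := by
      rw [← WithTop.coe_add, hT, ← hn]
      congr 1
      push_cast
      ring
    rw [hTe]
    by_cases hlt : ij.1 < i
    · have h3 : (a : WithTop ℝ) < tm w D s f ij.1 := lt_of_le_of_ne h1 (hi' _ hlt).symm
      rw [tm, lt_add_coe] at h3
      rw [tm, le_add_coe] at h2
      have h4 := WithTop.add_lt_add_of_lt_of_le WithTop.coe_ne_top h3 h2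
      refine lt_of_lt_of_le h4 ?_
      exact le_add_of_nonneg_left h0
    · have hlt2 : ij.2 < j := by
        rcases lt_or_ge ij.2 j with h | h
        · exact h
        · exfalso
          apply hne
          ext <;> simp <;> omega
      have h3 : (b : WithTop ℝ) < tm w D s g ij.2 := lt_of_le_of_ne h2 (hj' _ hlt2).symm
      rw [tm, lt_add_coe] at h3
      rw [tm, le_add_coe] at h1
      have h4 := WithTop.add_lt_add_of_le_of_lt WithTop.coe_ne_top h1 h3
      refine lt_of_lt_of_le h4 ?_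
      exact le_add_of_nonneg_left h0
  have hmain : (T : WithTop ℝ) < w.v (F (i, j)) := by
    have h1 : F (i, j) = (∑ ij ∈ Finset.HasAntidiagonal.antidiagonal (i + j), F ij) -
        ∑ ij ∈ (Finset.HasAntidiagonal.antidiagonal (i + j)).erase (i, j), F ij := by
      rw [← hsum]
      ring
    rw [h1, sub_eq_add_neg]
    refine w.v.map_lt_add hcon ?_
    rwa [AddValuation.map_neg]
  simp only [hF] at hmain
  rw [w.v.map_mul, w.v.map_mul, w_cast w (Nat.choose_pos (Nat.le_add_right i j)).ne', zero_add]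
    at hmain
  have hi2 : w.v ((D : R → R)^[i] f) ≤ ((a - i * s : ℝ) : WithTop ℝ) := by
    by_contra h
    rw [not_le, ← lt_add_coe] at h
    exact absurd hi h.ne'
  have hj2 : w.v ((D : R → R)^[j] g) ≤ ((b - j * s : ℝ) : WithTop ℝ) := by
    by_contra h
    rw [not_le, ← lt_add_coe] at h
    exact absurd hj h.ne'
  have h5 := add_le_add hi2 hj2
  refine absurd (hmain.trans_le h5) ?_
  rw [not_lt, ← WithTop.coe_add, WithTop.coe_le_coe, hT]
  push_cast
  linarith

theorem s_VAL : S_VAL := by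
  intro R _ _ _ _ w D s hs
  classical
  choose m hm1 hm2 using exists_tm w D hs
  have hm0 : m 0 = ⊤ := by
    obtain ⟨j, hj⟩ := hm2 0
    rw [hj, tm, iter_zero, AddValuation.map_zero, top_add]
  have hmle : ∀ f, m f ≤ w.v f := by
    intro f
    have h := hm1 f 0
    rw [tm, Function.iterate_zero, id_eq] at h
    simpa using h
  have hreal : ∀ f, f ≠ 0 → ∃ a : ℝ, m f = (a : WithTop ℝ) := by
    intro f hf
    obtain ⟨x, -, hx⟩ := w_real w hf
    have h1 : m f ≠ ⊤ := by
      intro h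
      have h2 := hmle f
      rw [h, hx, top_le_iff] at h2
      exact WithTop.coe_ne_top h2
    obtain ⟨a, ha⟩ := WithTop.ne_top_iff_exists.1 h1
    exact ⟨a, ha.symm⟩
  have hmul : ∀ f g, m (f * g) = m f + m g := by
    intro f g
    by_cases hf : f = 0
    · rw [hf, zero_mul, hm0, top_add]
    by_cases hg : g = 0
    · rw [hg, mul_zero, hm0, add_top]
    obtain ⟨a, ha⟩ := hreal f hf
    obtain ⟨b, hb⟩ := hreal g hg
    have ha1 : ∀ j, (a : WithTop ℝ) ≤ tm w D s f j := fun j => ha ▸ hm1 f j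
    have hb1 : ∀ j, (b : WithTop ℝ) ≤ tm w D s g j := fun j => hb ▸ hm1 g j
    have hfe : ∃ i, tm w D s f i = (a : WithTop ℝ) := by
      obtain ⟨i, hi⟩ := hm2 f
      exact ⟨i, by rw [← hi, ha]⟩
    have hge : ∃ i, tm w D s g i = (b : WithTop ℝ) := by
      obtain ⟨i, hi⟩ := hm2 g
      exact ⟨i, by rw [← hi, hb]⟩
    rw [ha, hb, ← WithTop.coe_add]
    apply le_antisymm
    · refine (hm1 _ _).trans (tm_mul_le w D s f g ha1 hb1 (Nat.find hfe) (Nat.find hge)
        (Nat.find_spec hfe) (Nat.find_spec hge) (fun k hk => Nat.find_min hfe hk)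
        (fun k hk => Nat.find_min hge hk))
    · obtain ⟨n, hn⟩ := hm2 (f * g)
      rw [hn]
      exact tm_mul_ge w D s f g ha1 hb1 n
  have hadd : ∀ f g, min (m f) (m g) ≤ m (f + g) := by
    intro f g
    obtain ⟨n, hn⟩ := hm2 (f + g)
    rw [hn, tm, iter_add]
    have h1 := hm1 f n
    have h2 := hm1 g n
    rw [tm] at h1 h2
    rcases min_le_iff.1 (w.v.map_add ((D : R → R)^[n] f) ((D : R → R)^[n] g)) with h3 | h3
    · exact (min_le_left _ _).trans (h1.trans (add_le_add h3 le_rfl))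
    · exact (min_le_right _ _).trans (h2.trans (add_le_add h3 le_rfl))
  have hone : m 1 = 0 := by
    have h1 := hmul 1 1
    rw [one_mul] at h1
    obtain ⟨a, ha⟩ := hreal 1 one_ne_zero
    rw [ha, ← WithTop.coe_add, WithTop.coe_eq_coe] at h1
    rw [ha]
    have : a = 0 := by linarith
    rw [this]
    rfl
  have hnn : ∀ f, 0 ≤ m f := by
    intro f
    obtain ⟨n, hn⟩ := hm2 f
    rw [hn, tm]
    refine add_nonneg (w.nonneg _) ?_
    exact_mod_cast mul_nonneg (Nat.cast_nonneg n) hs.le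
  refine ⟨⟨AddValuation.of m hm0 hone hadd hmul, hnn, ?_, ?_⟩, ?_, ?_⟩
  · intro f hf
    refine w.top f ?_
    have h1 : m f = ⊤ := hf
    have h2 := hmle f
    rw [h1, top_le_iff] at h2
    exact h2
  · intro f
    have h0 : (AddValuation.of m hm0 hone hadd hmul) f = m f := rfl
    rw [h0, ← w.pos]
    refine ⟨fun h => h.trans_le (hmle f), fun h => ?_⟩
    obtain ⟨n, hn⟩ := hm2 f
    rw [hn, tm]
    rcases Nat.eq_zero_or_pos n with h1 | h1
    · subst h1
      rw [Function.iterate_zero, id_eq]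
      simpa using h
    · refine lt_of_lt_of_le (b := ((n * s : ℝ) : WithTop ℝ)) ?_
        (le_add_of_nonneg_left (w.nonneg _))
      have : (0 : ℝ) < n * s := mul_pos (Nat.cast_pos.2 h1) hs
      exact_mod_cast this
  · intro f j
    exact hm1 f j
  · intro f
    exact hm2 f

end

end Pool.Agent.Helper79.T1
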